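import Mathlib

set_option autoImplicit false

/-! Project SP (small split primes in imaginary quadratic fields): statements. -/

namespace Pool.Agent.H471R4.SP

open Finset

/-- negative fundamental discriminants -/
def Fund (d : ℤ) : Prop :=
  d < 0 ∧ ((d % 4 = 1 ∧ Squarefree d) ∨
    (∃ m : ℤ, d = 4 * m ∧ (m % 4 = 2 ∨ m % 4 = 3) ∧ Squarefree m))

/-- `p` splits in `ℚ(√d)` -/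
def Splits (d : ℤ) (p : ℕ) : Prop := ¬ ((p : ℤ) ∣ d) ∧ ∃ x : ℤ, (4 * (p : ℤ)) ∣ x ^ 2 - d

/-- task PER -/
def PER : Prop := ∀ m : ℤ, ¬ IsSquare m → ∀ D : ℕ,
    |((∑ s ∈ (Icc 1 D).filter (fun s => Odd s), jacobiSym m s : ℤ) : ℝ)| ≤ 4 * |(m : ℝ)|

/-- task DIF -/
def DIF : Prop := ∀ d d' : ℤ, Fund d → Fund d' → d ≠ d' → ¬ IsSquare (d * d')

/-- task SPL -/
def SPL : Prop := ∀ d : ℤ, Fund d → ∀ p : ℕ, p.Prime → p ≠ 2 → jacobiSym d p = 1 → Splits d p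

/-- task RSM -/
def RSM : Prop := ∀ κ : ℝ, 0 < κ → κ ≤ 1 / 2 → ∃ c : ℝ, 0 < c ∧ ∃ D0 : ℕ, ∀ D : ℕ, D0 ≤ D →
    ∃ S : Finset ℕ, (∀ s ∈ S, 1 ≤ s ∧ s ≤ D ∧
      ∀ l : ℕ, l.Prime → l ∣ s → (D : ℝ) ^ (κ / 4) < l ∧ (l : ℝ) ≤ (D : ℝ) ^ κ) ∧
      c * D / Real.log D ≤ S.card

/-- task CNS -/
def CNS : Prop := ∀ δ : ℝ, 0 < δ → δ ≤ 1 → ∃ C : ℝ, ∃ X0 : ℕ, ∀ X : ℕ, X0 ≤ X →
    ∀ W : Finset ℤ, (∀ d ∈ W, Fund d ∧ |d| ≤ X ∧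
      ((Set.ncard {p : ℕ | p.Prime ∧ (p : ℝ) < (X : ℝ) ^ δ ∧ p ≠ 2 ∧ jacobiSym d p = 1} : ℕ) : ℝ) <
        (X : ℝ) ^ (δ / 8)) → (W.card : ℝ) ≤ C * Real.log X

/-- task FNS -/
def FNS : Prop := ∀ δ : ℝ, 0 < δ → δ ≤ 1 → ∃ C : ℝ, ∀ X : ℕ, 2 ≤ X →
    ∀ W : Finset ℤ, (∀ d ∈ W, Fund d ∧ |d| ≤ X ∧
      ((Set.ncard {p : ℕ | p.Prime ∧ (p : ℝ) < |(d : ℝ)| ^ δ ∧ Splits d p} : ℕ) : ℝ) <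
        |(d : ℝ)| ^ (δ / 16)) → (W.card : ℝ) ≤ C * Real.log X

end Pool.Agent.H471R4.SP
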