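import Mathlib
import Pool.Agent.H471R4.SP.Stubs

/-! Project SP (helper471), task CNS. -/

set_option autoImplicit false

namespace Pool.Agent.H471R4.SP

open Finset

namespace CNS_

/-- the Liouville function -/
noncomputable def lam (s : ℕ) : ℤ := (-1) ^ (ArithmeticFunction.cardFactors s)

theorem lam_or (s : ℕ) : lam s = 1 ∨ lam s = -1 := neg_one_pow_eq_or _ _

theorem good (d : ℤ) (s : ℕ) (hs : s ≠ 0)
    (h : ∀ l : ℕ, l.Prime → l ∣ s → jacobiSym d l = -1) : lam s * jacobiSym d s = 1 := by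
  induction s using Nat.recOnMul with
  | zero => exact absurd rfl hs
  | one => simp [lam]
  | prime p hp =>
    rw [h p hp dvd_rfl]
    unfold lam
    rw [ArithmeticFunction.cardFactors_apply_prime hp]
    norm_num
  | mul a b iha ihb =>
    have ha : a ≠ 0 := left_ne_zero_of_mul hs
    have hb : b ≠ 0 := right_ne_zero_of_mul hs
    haveI := NeZero.mk ha
    haveI := NeZero.mk hb
    have h1 := iha ha (fun l hl hla => h l hl (hla.mul_right b))
    have h2 := ihb hb (fun l hl hlb => h l hl (hlb.mul_left a))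
    rw [jacobiSym.mul_right]
    unfold lam at *
    rw [ArithmeticFunction.cardFactors_mul ha hb, pow_add]
    calc (-1) ^ ArithmeticFunction.cardFactors a * (-1) ^ ArithmeticFunction.cardFactors b *
        (jacobiSym d a * jacobiSym d b) = ((-1) ^ ArithmeticFunction.cardFactors a * jacobiSym d a) *
          ((-1) ^ ArithmeticFunction.cardFactors b * jacobiSym d b) := by ring
      _ = 1 := by rw [h1, h2]; norm_num

theorem lower (d : ℤ) (s : ℕ) : -1 ≤ lam s * jacobiSym d s := by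
  rcases lam_or s with h | h <;> rcases jacobiSym.trichotomy d s with h1 | h1 | h1 <;>
    rw [h, h1] <;> norm_num

/-- number of primes dividing `n` -/
theorem omega_le (n : ℕ) (hn : n ≠ 0) : (n.primeFactors.card : ℝ) ≤ 2 * Real.log n := by
  have h1 : 2 ^ n.primeFactors.card ≤ n := by
    calc 2 ^ n.primeFactors.card = ∏ p ∈ n.primeFactors, 2 := by rw [prod_const]
      _ ≤ ∏ p ∈ n.primeFactors, p := prod_le_prod (fun _ _ => by norm_num)
          (fun p hp => (Nat.prime_of_mem_primeFactors hp).two_le)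
      _ ≤ n := Nat.le_of_dvd (Nat.pos_of_ne_zero hn) (Nat.prod_primeFactors_dvd n)
  have h2 : ((2 : ℝ)) ^ n.primeFactors.card ≤ n := by exact_mod_cast h1
  have h3 := Real.log_le_log (by positivity) h2
  rw [Real.log_pow] at h3
  have h4 := Real.log_two_gt_d9
  have h5 : (0 : ℝ) ≤ (n.primeFactors.card : ℝ) := Nat.cast_nonneg _
  nlinarith

/-- the sum over one `d` -/
theorem one_d (d : ℤ) (D : ℕ) (S Bd : Finset ℕ) (b : ℝ) (hb : 0 < b)
    (hS : ∀ s ∈ S, 1 ≤ s ∧ s ≤ D) (hBd : ∀ l ∈ Bd, b < (l : ℝ))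
    (h : ∀ s ∈ S, ∀ l : ℕ, l.Prime → l ∣ s → l ∉ Bd → jacobiSym d l = -1) :
    (S.card : ℝ) - 2 * (Bd.card * (D / b)) ≤
      ∑ s ∈ S, (lam s : ℝ) * (jacobiSym d s : ℝ) := by
  classical
  set bad := S.filter (fun s => ∃ l ∈ Bd, l ∣ s) with hbad
  have h1 : (bad.card : ℝ) ≤ Bd.card * (D / b) := by
    have h2 : bad ⊆ Bd.biUnion (fun l => (Ioc 0 D).filter (fun s => l ∣ s)) := by
      intro s hs
      rw [hbad, mem_filter] at hs
      obtain ⟨hs1, l, hl, hls⟩ := hs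
      rw [mem_biUnion]
      exact ⟨l, hl, mem_filter.2 ⟨mem_Ioc.2 ⟨(hS s hs1).1, (hS s hs1).2⟩, hls⟩⟩
    have h3 : bad.card ≤ ∑ l ∈ Bd, D / l := by
      refine (card_le_card h2).trans (card_biUnion_le.trans ?_)
      refine sum_le_sum fun l _ => ?_
      rw [Nat.Ioc_filter_dvd_card_eq_div]
    calc (bad.card : ℝ) ≤ ((∑ l ∈ Bd, D / l : ℕ) : ℝ) := by exact_mod_cast h3
      _ = ∑ l ∈ Bd, ((D / l : ℕ) : ℝ) := by push_cast; rfl
      _ ≤ ∑ l ∈ Bd, (D / b : ℝ) := by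
          refine sum_le_sum fun l hl => ?_
          refine Nat.cast_div_le.trans ?_
          exact div_le_div_of_nonneg_left (Nat.cast_nonneg _) hb (hBd l hl).le
      _ = Bd.card * (D / b) := by rw [sum_const, nsmul_eq_mul]
  have h4 : ∀ s ∈ S, (1 : ℝ) - 2 * (if ∃ l ∈ Bd, l ∣ s then 1 else 0) ≤
      (lam s : ℝ) * (jacobiSym d s : ℝ) := by
    intro s hs
    split_ifs with hc
    · have := lower d s
      have h5 : ((-1 : ℤ) : ℝ) ≤ ((lam s * jacobiSym d s : ℤ) : ℝ) := by exact_mod_cast this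
      push_cast at h5
      linarith
    · push Not at hc
      have := good d s (by have := (hS s hs).1; omega) (fun l hl hls =>
        h s hs l hl hls (fun hlB => hc l hlB hls))
      have h5 : ((lam s * jacobiSym d s : ℤ) : ℝ) = 1 := by rw [this]; norm_num
      push_cast at h5
      linarith
  have h6 := sum_le_sum h4
  rw [sum_sub_distrib, ← mul_sum, sum_boole, sum_const, nsmul_eq_mul, mul_one] at h6
  rw [← hbad] at h6
  linarith

/-- the dual large sieve -/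
theorem dual (h1 : PER) (h2 : DIF) (X D : ℕ) (S : Finset ℕ) (hS : ∀ s ∈ S, 1 ≤ s ∧ s ≤ D ∧ Odd s)
    (W : Finset ℤ) (hW : ∀ d ∈ W, Fund d ∧ |d| ≤ X) :
    (∑ d ∈ W, ∑ s ∈ S, (lam s : ℝ) * (jacobiSym d s : ℝ)) ^ 2 ≤
      S.card * (W.card * D + (W.card : ℝ) ^ 2 * (4 * (X : ℝ) ^ 2)) := by
  set O := (Icc 1 D).filter (fun s => Odd s) with hO
  have hSO : S ⊆ O := by
    intro s hs
    obtain ⟨a, b, c⟩ := hS s hs
    exact mem_filter.2 ⟨mem_Icc.2 ⟨a, b⟩, c⟩
  have e1 : ∑ d ∈ W, ∑ s ∈ S, (lam s : ℝ) * (jacobiSym d s : ℝ) =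
      ∑ s ∈ S, (lam s : ℝ) * ∑ d ∈ W, (jacobiSym d s : ℝ) := by
    rw [sum_comm]
    exact sum_congr rfl fun s _ => by rw [mul_sum]
  rw [e1]
  have e2 : ∑ s ∈ S, (lam s : ℝ) ^ 2 = S.card := by
    have : ∀ s ∈ S, (lam s : ℝ) ^ 2 = 1 := by
      intro s _
      rcases lam_or s with h | h <;> rw [h] <;> norm_num
    rw [sum_congr rfl this]; simp
  have hCS := sum_mul_sq_le_sq_mul_sq S (fun s => (lam s : ℝ))
    (fun s => ∑ d ∈ W, (jacobiSym d s : ℝ))
  rw [e2] at hCS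
  refine hCS.trans ?_
  refine mul_le_mul_of_nonneg_left ?_ (Nat.cast_nonneg _)
  have h3 : ∑ s ∈ S, (∑ d ∈ W, (jacobiSym d s : ℝ)) ^ 2 ≤
      ∑ s ∈ O, (∑ d ∈ W, (jacobiSym d s : ℝ)) ^ 2 :=
    sum_le_sum_of_subset_of_nonneg hSO fun _ _ _ => sq_nonneg _
  refine h3.trans ?_
  have e3 : ∑ s ∈ O, (∑ d ∈ W, (jacobiSym d s : ℝ)) ^ 2 =
      ∑ d ∈ W, ∑ d' ∈ W, ∑ s ∈ O, (jacobiSym (d * d') s : ℝ) := by
    have : ∀ s ∈ O, (∑ d ∈ W, (jacobiSym d s : ℝ)) ^ 2 =
        ∑ d ∈ W, ∑ d' ∈ W, (jacobiSym (d * d') s : ℝ) := by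
      intro s _
      rw [sq, sum_mul_sum]
      refine sum_congr rfl fun d _ => sum_congr rfl fun d' _ => ?_
      rw [jacobiSym.mul_left]; push_cast; ring
    rw [sum_congr rfl this, sum_comm]
    refine sum_congr rfl fun d _ => ?_
    rw [sum_comm]
  rw [e3]
  have hcardO : (O.card : ℝ) ≤ D := by
    have : O.card ≤ D := (card_filter_le _ _).trans (by simp)
    exact_mod_cast this
  have h4 : ∀ d ∈ W, ∀ d' ∈ W, ∑ s ∈ O, (jacobiSym (d * d') s : ℝ) ≤
      (if d = d' then (D : ℝ) else 0) + 4 * (X : ℝ) ^ 2 := by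
    intro d hd d' hd'
    split_ifs with hdd
    · have : ∑ s ∈ O, (jacobiSym (d * d') s : ℝ) ≤ ∑ s ∈ O, (1 : ℝ) := by
        refine sum_le_sum fun s _ => ?_
        rcases jacobiSym.trichotomy (d * d') s with h | h | h <;> rw [h] <;> norm_num
      rw [sum_const, nsmul_eq_mul, mul_one] at this
      have : (0 : ℝ) ≤ 4 * (X : ℝ) ^ 2 := by positivity
      linarith
    · have h5 := h1 (d * d') (h2 d d' (hW d hd).1 (hW d' hd').1 hdd) D
      rw [← hO] at h5
      have h6 := (le_abs_self _).trans h5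
      push_cast at h6
      have h7 : |(d : ℝ) * (d' : ℝ)| ≤ (X : ℝ) ^ 2 := by
        rw [abs_mul, sq]
        have a1 : |(d : ℝ)| ≤ (X : ℝ) := by exact_mod_cast (hW d hd).2
        have a2 : |(d' : ℝ)| ≤ (X : ℝ) := by exact_mod_cast (hW d' hd').2
        exact mul_le_mul a1 a2 (abs_nonneg _) (Nat.cast_nonneg _)
      linarith
  calc ∑ d ∈ W, ∑ d' ∈ W, ∑ s ∈ O, (jacobiSym (d * d') s : ℝ) ≤
      ∑ d ∈ W, ∑ d' ∈ W, ((if d = d' then (D : ℝ) else 0) + 4 * (X : ℝ) ^ 2) :=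
        sum_le_sum fun d hd => sum_le_sum fun d' hd' => h4 d hd d' hd'
    _ = W.card * D + (W.card : ℝ) ^ 2 * (4 * (X : ℝ) ^ 2) := by
        have : ∀ d ∈ W, ∑ d' ∈ W, ((if d = d' then (D : ℝ) else 0) + 4 * (X : ℝ) ^ 2) =
            D + W.card * (4 * (X : ℝ) ^ 2) := by
          intro d hd
          rw [sum_add_distrib, sum_ite_eq, if_pos hd, sum_const, nsmul_eq_mul]
        rw [sum_congr rfl this, sum_const, nsmul_eq_mul]
        ring

end CNS_

open CNS_ in
theorem cns (h1 : PER) (h2 : DIF) (h3 : RSM) : CNS := by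
  classical
  intro δ hδ hδ1
  obtain ⟨c, hc, D0, hD⟩ := h3 (δ / 4) (by positivity) (by linarith)
  -- conditions for large X
  have hev : ∀ᶠ x : ℝ in Filter.atTop, Real.log x ≤ x ^ (δ / 32) ∧ 36 / c ≤ x ^ (δ / 32) ∧
      2 ≤ x ^ (δ / 32) ∧ 96 * Real.log x ≤ c * x ∧ 3 ≤ x := by
    have a1 : ∀ᶠ x : ℝ in Filter.atTop, Real.log x ≤ x ^ (δ / 32) := by
      have h := (isLittleO_log_rpow_atTop (show 0 < δ / 32 by positivity)).bound
        (show (0 : ℝ) < 1 by norm_num)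
      filter_upwards [h, Filter.eventually_ge_atTop (1 : ℝ)] with x hx hx1
      rw [one_mul, Real.norm_eq_abs, Real.norm_eq_abs, abs_of_nonneg (Real.log_nonneg hx1),
        abs_of_nonneg (Real.rpow_nonneg (by linarith) _)] at hx
      exact hx
    have a2 := (tendsto_rpow_atTop (show 0 < δ / 32 by positivity)).eventually_ge_atTop (36 / c)
    have a3 := (tendsto_rpow_atTop (show 0 < δ / 32 by positivity)).eventually_ge_atTop 2
    have a4 : ∀ᶠ x : ℝ in Filter.atTop, 96 * Real.log x ≤ c * x := by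
      have h := Real.isLittleO_log_id_atTop.bound (show (0 : ℝ) < c / 96 by positivity)
      filter_upwards [h, Filter.eventually_ge_atTop (1 : ℝ)] with x hx hx1
      rw [Real.norm_eq_abs, Real.norm_eq_abs, abs_of_nonneg (Real.log_nonneg hx1), id,
        abs_of_nonneg (by linarith : (0:ℝ) ≤ x)] at hx
      linarith
    filter_upwards [a1, a2, a3, a4, Filter.eventually_ge_atTop (3 : ℝ)] with x b1 b2 b3 b4 b5
    exact ⟨b1, b2, b3, b4, b5⟩
  obtain ⟨X1, hX1⟩ := Filter.eventually_atTop.1 hev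
  refine ⟨24 / c, max (max D0 ⌈X1⌉₊) 3, fun X hX W hW => ?_⟩
  have hXD0 : D0 ≤ X := (le_max_left _ _).trans ((le_max_left _ _).trans hX)
  have hXX1 : X1 ≤ (X : ℝ) := (Nat.le_ceil _).trans
    (by exact_mod_cast (le_max_right D0 _).trans ((le_max_left _ _).trans hX))
  obtain ⟨q1, q2, q3, q4, q5⟩ := hX1 X hXX1
  set t : ℝ := (X : ℝ) ^ (δ / 32) with ht
  have hX0 : (0 : ℝ) < X := by linarith
  have ht1 : 1 ≤ t := by linarith
  have tpow : ∀ n : ℕ, t ^ n = (X : ℝ) ^ (δ / 32 * n) := by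
    intro n
    rw [ht, ← Real.rpow_natCast, ← Real.rpow_mul hX0.le]
  have hlog1 : 1 ≤ Real.log X := by
    rw [Real.le_log_iff_exp_le hX0]
    have := Real.exp_one_lt_d9
    linarith
  have hXN : 1 ≤ X := by
    have : (1 : ℝ) ≤ X := by linarith
    exact_mod_cast this
  have hDX : D0 ≤ X ^ 3 := hXD0.trans (Nat.le_self_pow (by norm_num) X)
  obtain ⟨S, hS1, hS2⟩ := hD (X ^ 3) hDX
  have e4 : (((X ^ 3 : ℕ)) : ℝ) ^ (δ / 4 / 4) = t ^ 6 := by
    rw [tpow]; push_cast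
    rw [← Real.rpow_natCast (X : ℝ) 3, ← Real.rpow_mul hX0.le]
    congr 1; push_cast; ring
  have e5 : (((X ^ 3 : ℕ)) : ℝ) ^ (δ / 4) = t ^ 24 := by
    rw [tpow]; push_cast
    rw [← Real.rpow_natCast (X : ℝ) 3, ← Real.rpow_mul hX0.le]
    congr 1; push_cast; ring
  have e6 : (X : ℝ) ^ (δ / 8) = t ^ 4 := by rw [tpow]; congr 1; push_cast; ring
  have e7 : (X : ℝ) ^ δ = t ^ 32 := by rw [tpow]; congr 1; push_cast; ring
  rw [e4, e5] at hS1
  rw [e6, e7] at hW
  have hlogD : Real.log ((X ^ 3 : ℕ) : ℝ) = 3 * Real.log X := by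
    push_cast; rw [Real.log_pow]; norm_num
  rw [hlogD] at hS2
  push_cast at hS2
  have ht6 : 2 ≤ t ^ 6 := by
    calc (2 : ℝ) ≤ t := q3
      _ = t ^ 1 := (pow_one t).symm
      _ ≤ t ^ 6 := pow_le_pow_right₀ ht1 (by norm_num)
  have ht6' : 0 < t ^ 6 := by linarith
  have hSodd : ∀ s ∈ S, 1 ≤ s ∧ s ≤ X ^ 3 ∧ Odd s := by
    intro s hs
    obtain ⟨b1, b2, b3⟩ := hS1 s hs
    refine ⟨b1, b2, ?_⟩
    by_contra hodd
    rw [Nat.not_odd_iff_even] at hodd
    have := (b3 2 Nat.prime_two hodd.two_dvd).1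
    push_cast at this
    linarith
  have hdual := dual h1 h2 X (X ^ 3) S hSodd W (fun d hd => ⟨(hW d hd).1, (hW d hd).2.1⟩)
  -- |S| is large
  set L := Real.log X with hL
  have hSpos : 0 < (S.card : ℝ) := lt_of_lt_of_le (by positivity) hS2
  have hS3 : c * (X : ℝ) ^ 3 ≤ 3 * L * S.card := by
    rw [div_le_iff₀ (by linarith)] at hS2
    linarith
  have hlow : ∀ d ∈ W, (S.card : ℝ) / 2 ≤ ∑ s ∈ S, (lam s : ℝ) * (jacobiSym d s : ℝ) := by
    intro d hd
    obtain ⟨b1, b2, b3⟩ := hW d hd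
    have hd0 : d ≠ 0 := by
      have := b1.1
      omega
    set Q : Set ℕ := {p : ℕ | p.Prime ∧ (p : ℝ) < t ^ 32 ∧ p ≠ 2 ∧ jacobiSym d p = 1} with hQ
    have hQf : Q.Finite := by
      refine (Set.finite_le_nat ⌈t ^ 32⌉₊).subset ?_
      rintro p ⟨_, hp, _⟩
      have : (p : ℝ) ≤ (⌈t ^ 32⌉₊ : ℝ) := hp.le.trans (Nat.le_ceil _)
      exact_mod_cast this
    set Bd := ((d.natAbs.primeFactors ∪ hQf.toFinset).filter (fun l : ℕ => t ^ 6 < (l : ℝ)))
      with hBd
    have hcard : (Bd.card : ℝ) ≤ 2 * L + t ^ 4 := by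
      have c1 : Bd.card ≤ d.natAbs.primeFactors.card + hQf.toFinset.card :=
        (card_filter_le _ _).trans (card_union_le _ _)
      have c2 : hQf.toFinset.card = Q.ncard := (Set.ncard_eq_toFinset_card Q hQf).symm
      have c3 := omega_le d.natAbs (Int.natAbs_ne_zero.2 hd0)
      have c4 : Real.log (d.natAbs : ℝ) ≤ L := by
        apply Real.log_le_log
        · exact_mod_cast Int.natAbs_pos.2 hd0
        · have : ((d.natAbs : ℤ)) ≤ (X : ℤ) := by rw [Int.natCast_natAbs]; exact b2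
          exact_mod_cast this
      rw [c2] at c1
      have c5 : (Bd.card : ℝ) ≤ (d.natAbs.primeFactors.card : ℝ) + (Q.ncard : ℝ) := by
        exact_mod_cast c1
      linarith
    have hone := one_d d (X ^ 3) S Bd (t ^ 6) ht6' (fun s hs => ⟨(hS1 s hs).1, (hS1 s hs).2.1⟩)
      (fun l hl => (mem_filter.1 hl).2) (by
        intro s hs l hl hls hlB
        obtain ⟨r1, r2⟩ := (hS1 s hs).2.2 l hl hls
        have hl2 : l ≠ 2 := by
          rintro rfl
          push_cast at r1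
          linarith
        have r3 : (l : ℝ) < t ^ 32 := by
          refine lt_of_le_of_lt r2 ?_
          exact pow_lt_pow_right₀ (by linarith) (by norm_num)
        have r4 : l ∉ d.natAbs.primeFactors ∪ hQf.toFinset := by
          intro hmem
          exact hlB (mem_filter.2 ⟨hmem, r1⟩)
        rw [mem_union, not_or] at r4
        obtain ⟨r5, r6⟩ := r4
        rw [Set.Finite.mem_toFinset] at r6
        have r7 : jacobiSym d l ≠ 1 := fun hj => r6 ⟨hl, r3, hl2, hj⟩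
        have r8 : jacobiSym d l ≠ 0 := by
          haveI := NeZero.mk hl.ne_zero
          rw [Ne, jacobiSym.eq_zero_iff_not_coprime, not_not]
          rw [Nat.mem_primeFactors] at r5
          have r9 : ¬ l ∣ d.natAbs := fun hd' => r5 ⟨hl, hd', Int.natAbs_ne_zero.2 hd0⟩
          have := (Nat.Prime.coprime_iff_not_dvd hl).2 r9
          rw [Int.gcd]
          simpa [Nat.Coprime, Nat.gcd_comm] using this
        rcases jacobiSym.trichotomy d l with h | h | h
        · exact absurd h r8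
        · exact absurd h r7
        · exact h)
    have hsmall : 2 * ((Bd.card : ℝ) * (((X ^ 3 : ℕ) : ℝ) / t ^ 6)) ≤ (S.card : ℝ) / 2 := by
      -- 12 L (2 L + t^4) ≤ c t^6
      have f1 : 12 * L * (2 * L + t ^ 4) ≤ c * t ^ 6 := by
        have g1 : 2 * L + t ^ 4 ≤ 3 * t ^ 4 := by
          have : t ≤ t ^ 4 := by
            calc t = t ^ 1 := (pow_one t).symm
              _ ≤ t ^ 4 := pow_le_pow_right₀ ht1 (by norm_num)
          linarith
        have g2 : 12 * L * (2 * L + t ^ 4) ≤ 12 * t * (3 * t ^ 4) := by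
          apply mul_le_mul (by linarith) g1 (by positivity) (by positivity)
        have g3 : 36 ≤ c * t := by
          rw [div_le_iff₀ hc] at q2; linarith
        have g4 : 12 * t * (3 * t ^ 4) = 36 * t ^ 5 := by ring
        have g5 : 36 * t ^ 5 ≤ c * t * t ^ 5 := mul_le_mul_of_nonneg_right g3 (by positivity)
        calc _ ≤ _ := g2
          _ = _ := g4
          _ ≤ _ := g5
          _ = c * t ^ 6 := by ring
      have f2 : 12 * L * ((Bd.card : ℝ)) ≤ c * t ^ 6 :=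
        (mul_le_mul_of_nonneg_left hcard (by positivity)).trans f1
      have f3 : (Bd.card : ℝ) * (X : ℝ) ^ 3 * (12 * L) ≤ t ^ 6 * (3 * L * S.card) := by
        calc (Bd.card : ℝ) * (X : ℝ) ^ 3 * (12 * L) = (12 * L * Bd.card) * (X : ℝ) ^ 3 := by ring
          _ ≤ (c * t ^ 6) * (X : ℝ) ^ 3 := mul_le_mul_of_nonneg_right f2 (by positivity)
          _ = t ^ 6 * (c * (X : ℝ) ^ 3) := by ring
          _ ≤ t ^ 6 * (3 * L * S.card) := mul_le_mul_of_nonneg_left hS3 ht6'.le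
      have f4 : (Bd.card : ℝ) * (X : ℝ) ^ 3 * 4 ≤ t ^ 6 * S.card := by
        have hL0 : 0 < 3 * L := by linarith
        refine le_of_mul_le_mul_left ?_ hL0
        calc 3 * L * ((Bd.card : ℝ) * (X : ℝ) ^ 3 * 4) = (Bd.card : ℝ) * (X : ℝ) ^ 3 * (12 * L) := by
              ring
          _ ≤ _ := f3
          _ = _ := by ring
      push_cast
      rw [← mul_div_assoc, ← mul_div_assoc, div_le_div_iff₀ ht6' (by norm_num)]
      linarith
    linarith
  -- conclusion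
  rcases Nat.eq_zero_or_pos W.card with hW0 | hW0
  · rw [hW0]; push_cast; positivity
  have hWpos : 0 < (W.card : ℝ) := by exact_mod_cast hW0
  have k1 : (W.card : ℝ) * (S.card / 2) ≤ ∑ d ∈ W, ∑ s ∈ S, (lam s : ℝ) * (jacobiSym d s : ℝ) := by
    have := sum_le_sum hlow
    rw [sum_const, nsmul_eq_mul] at this
    exact this
  have k2 : ((W.card : ℝ) * (S.card / 2)) ^ 2 ≤
      S.card * (W.card * (X : ℝ) ^ 3 + (W.card : ℝ) ^ 2 * (4 * (X : ℝ) ^ 2)) := by
    refine (pow_le_pow_left₀ (by positivity) k1 2).trans ?_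
    push_cast at hdual
    exact hdual
  -- 4 X^2 ≤ |S| / 8
  have k3 : 32 * (X : ℝ) ^ 2 ≤ S.card := by
    have hL0 : 0 < 3 * L := by linarith
    refine le_of_mul_le_mul_left ?_ hL0
    calc 3 * L * (32 * (X : ℝ) ^ 2) = (96 * L) * (X : ℝ) ^ 2 := by ring
      _ ≤ (c * X) * (X : ℝ) ^ 2 := mul_le_mul_of_nonneg_right q4 (by positivity)
      _ = c * (X : ℝ) ^ 3 := by ring
      _ ≤ 3 * L * S.card := hS3
  set w := (W.card : ℝ) with hw
  set σ := (S.card : ℝ) with hσ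
  have k4 : w * σ ≤ 8 * (X : ℝ) ^ 3 := by
    have m1 : (w * σ) * (w * σ) ≤ (w * σ) * (4 * (X : ℝ) ^ 3 + 16 * w * (X : ℝ) ^ 2) := by
      nlinarith [k2]
    have m2 : w * σ ≤ 4 * (X : ℝ) ^ 3 + 16 * w * (X : ℝ) ^ 2 :=
      le_of_mul_le_mul_left m1 (by positivity)
    have m3 : 16 * w * (X : ℝ) ^ 2 ≤ w * σ / 2 := by nlinarith [mul_le_mul_of_nonneg_left k3 hWpos.le]
    linarith
  have k5 : w * (c * (X : ℝ) ^ 3) ≤ 24 * L * (X : ℝ) ^ 3 := by
    calc w * (c * (X : ℝ) ^ 3) ≤ w * (3 * L * σ) := mul_le_mul_of_nonneg_left hS3 hWpos.le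
      _ = 3 * L * (w * σ) := by ring
      _ ≤ 3 * L * (8 * (X : ℝ) ^ 3) := mul_le_mul_of_nonneg_left k4 (by linarith)
      _ = 24 * L * (X : ℝ) ^ 3 := by ring
  have k6 : w * c ≤ 24 * L := by
    refine le_of_mul_le_mul_right ?_ (show (0 : ℝ) < (X : ℝ) ^ 3 by positivity)
    linarith
  rw [div_mul_eq_mul_div, le_div_iff₀ hc]
  exact k6

end Pool.Agent.H471R4.SP
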