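import Pool.Agent.H471R4.SP.Stubs

set_option autoImplicit false

/-! Task FNS of project SP. -/

namespace Pool.Agent.H471R4.SP

open Finset

namespace FNSaux

theorem fin_set (d : ℤ) (B : ℝ) :
    Set.Finite {p : ℕ | p.Prime ∧ (p : ℝ) < B ∧ Splits d p} := by
  refine (Set.finite_lt_nat ⌈B⌉₊).subset ?_
  rintro p ⟨_, h, _⟩
  exact Nat.lt_ceil.2 h

theorem card_trivial (X : ℕ) (W : Finset ℤ) (h : ∀ d ∈ W, |d| ≤ (X : ℤ)) :
    (W.card : ℝ) ≤ 2 * X + 1 := by
  have h1 : W ⊆ Icc (-(X : ℤ)) X := fun d hd => Finset.mem_Icc.2 (abs_le.1 (h d hd))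
  have h2 := Finset.card_le_card h1
  rw [Int.card_Icc] at h2
  have h3 : ((X : ℤ) + 1 - -(X : ℤ)).toNat = 2 * X + 1 := by omega
  rw [h3] at h2
  exact_mod_cast h2

end FNSaux

open FNSaux in
theorem fns (h1 : CNS) (h2 : SPL) : FNS := by
  intro δ hδ hδ1
  obtain ⟨C1, X0, hC⟩ := h1 (δ / 2) (by linarith) (by linarith)
  set M : ℕ := max X0 4 with hM
  set C1' : ℝ := max C1 0 with hC1'
  have hC1n : 0 ≤ C1' := le_max_right _ _
  have hlog2 : 0 < Real.log 2 := Real.log_pos (by norm_num)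
  refine ⟨2 * C1' + (2 * M + 1) / Real.log 2, ?_⟩
  set C : ℝ := 2 * C1' + (2 * M + 1) / Real.log 2 with hCdef
  have hM0 : (0 : ℝ) ≤ (2 * M + 1) / Real.log 2 := by positivity
  have hCn : 0 ≤ C := by positivity
  intro X
  induction X using Nat.strong_induction_on with
  | _ X ih =>
  intro hX W hW
  have hXR : (2 : ℝ) ≤ X := by exact_mod_cast hX
  have hlogX : Real.log 2 ≤ Real.log X := Real.log_le_log (by norm_num) hXR
  have hlogX0 : 0 < Real.log X := lt_of_lt_of_le hlog2 hlogX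
  by_cases hlt : X < M
  · have h3 := card_trivial X W (fun d hd => (hW d hd).2.1)
    have h4 : (X : ℝ) ≤ M := by exact_mod_cast hlt.le
    calc (W.card : ℝ) ≤ 2 * X + 1 := h3
      _ ≤ 2 * M + 1 := by linarith
      _ = (2 * M + 1) / Real.log 2 * Real.log 2 := by field_simp
      _ ≤ (2 * M + 1) / Real.log 2 * Real.log X := mul_le_mul_of_nonneg_left hlogX hM0
      _ ≤ C * Real.log X := mul_le_mul_of_nonneg_right (by rw [hCdef]; linarith) hlogX0.le
  · have hXM : M ≤ X := not_lt.1 hlt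
    have hX0 : X0 ≤ X := le_trans (le_max_left _ _) hXM
    have hX4 : 4 ≤ X := le_trans (le_max_right _ _) hXM
    set Y : ℕ := Nat.sqrt X with hY
    have hY2 : 2 ≤ Y := Nat.le_sqrt.2 (by omega)
    have hYX : Y < X := Nat.sqrt_lt_self (by omega)
    have hYsq : Y * Y ≤ X := Nat.sqrt_le X
    have hYsq2 : X < (Y + 1) * (Y + 1) := Nat.lt_succ_sqrt X
    set W1 := W.filter (fun d => |d| ≤ (Y : ℤ)) with hW1
    set W2 := W.filter (fun d => ¬ |d| ≤ (Y : ℤ)) with hW2
    have hcard : (W.card : ℝ) = W1.card + W2.card := by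
      rw [← Nat.cast_add, hW1, hW2, Finset.card_filter_add_card_filter_not]
    have hb1 : (W1.card : ℝ) ≤ C * Real.log Y := by
      refine ih Y hYX hY2 W1 ?_
      intro d hd
      rw [hW1, Finset.mem_filter] at hd
      exact ⟨(hW d hd.1).1, hd.2, (hW d hd.1).2.2⟩
    have hYpos : (0 : ℝ) < Y := by
      have : (2 : ℝ) ≤ Y := by exact_mod_cast hY2
      linarith
    have hlogY : Real.log Y ≤ (1 / 2) * Real.log X := by
      have h5 : Real.log ((Y : ℝ) * Y) ≤ Real.log X :=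
        Real.log_le_log (by positivity) (by exact_mod_cast hYsq)
      rw [Real.log_mul hYpos.ne' hYpos.ne'] at h5
      linarith
    have hXpos : (0 : ℝ) < X := by linarith
    have hb2 : (W2.card : ℝ) ≤ C1 * Real.log X := by
      refine hC X hX0 W2 ?_
      intro d hd
      rw [hW2, Finset.mem_filter] at hd
      obtain ⟨hdW, hdY⟩ := hd
      obtain ⟨hF, hdX, hn⟩ := hW d hdW
      refine ⟨hF, hdX, ?_⟩
      have hdY' : (Y : ℤ) + 1 ≤ |d| := by
        have := not_le.1 hdY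
        omega
      have hdYR : (Y : ℝ) + 1 ≤ |(d : ℝ)| := by
        have : (((Y : ℤ) + 1 : ℤ) : ℝ) ≤ ((|d| : ℤ) : ℝ) := by exact_mod_cast hdY'
        push_cast at this
        exact this
      have hdXR : |(d : ℝ)| ≤ X := by
        have : ((|d| : ℤ) : ℝ) ≤ (((X : ℤ)) : ℝ) := by exact_mod_cast hdX
        push_cast at this
        exact this
      have hdpos : 0 < |(d : ℝ)| := by linarith
      have hsq : (X : ℝ) ≤ |(d : ℝ)| ^ (2 : ℝ) := by
        have h6 : (X : ℝ) ≤ (Y + 1) * (Y + 1) := by exact_mod_cast hYsq2.le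
        rw [Real.rpow_two]
        nlinarith
      have hpow : (X : ℝ) ^ (δ / 2) ≤ |(d : ℝ)| ^ δ := by
        calc (X : ℝ) ^ (δ / 2) ≤ (|(d : ℝ)| ^ (2 : ℝ)) ^ (δ / 2) :=
              Real.rpow_le_rpow hXpos.le hsq (by linarith)
          _ = |(d : ℝ)| ^ δ := by
              rw [← Real.rpow_mul hdpos.le]
              congr 1
              ring
      have hsub : {p : ℕ | p.Prime ∧ (p : ℝ) < (X : ℝ) ^ (δ / 2) ∧ p ≠ 2 ∧ jacobiSym d p = 1} ⊆
          {p : ℕ | p.Prime ∧ (p : ℝ) < |(d : ℝ)| ^ δ ∧ Splits d p} := by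
        rintro p ⟨hp, hpX, hp2, hJ⟩
        exact ⟨hp, lt_of_lt_of_le hpX hpow, h2 d hF p hp hp2 hJ⟩
      have hle := Set.ncard_le_ncard hsub (fin_set d _)
      have hle' : ((Set.ncard {p : ℕ | p.Prime ∧ (p : ℝ) < (X : ℝ) ^ (δ / 2) ∧ p ≠ 2 ∧
          jacobiSym d p = 1} : ℕ) : ℝ) ≤
          ((Set.ncard {p : ℕ | p.Prime ∧ (p : ℝ) < |(d : ℝ)| ^ δ ∧ Splits d p} : ℕ) : ℝ) := by
        exact_mod_cast hle
      have hlast : |(d : ℝ)| ^ (δ / 16) ≤ (X : ℝ) ^ (δ / 2 / 8) := by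
        have e : δ / 2 / 8 = δ / 16 := by ring
        rw [e]
        exact Real.rpow_le_rpow hdpos.le hdXR (by linarith)
      linarith
    have hb2' : (W2.card : ℝ) ≤ C1' * Real.log X :=
      hb2.trans (mul_le_mul_of_nonneg_right (le_max_left _ _) hlogX0.le)
    have hC2 : C1' ≤ C / 2 := by
      rw [hCdef]
      linarith
    calc (W.card : ℝ) = W1.card + W2.card := hcard
      _ ≤ C * Real.log Y + C1' * Real.log X := add_le_add hb1 hb2'
      _ ≤ C * ((1 / 2) * Real.log X) + C / 2 * Real.log X :=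
          add_le_add (mul_le_mul_of_nonneg_left hlogY hCn)
            (mul_le_mul_of_nonneg_right hC2 hlogX0.le)
      _ = C * Real.log X := by ring

end Pool.Agent.H471R4.SP
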