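import Pool.Agent.H471R4.SP.Stubs

set_option autoImplicit false

/-! Task SPL of project SP (helper199): `(d/p) = 1` means that `p` splits in `ℚ(√d)`. -/

namespace Pool.Agent.H471R4.SP

theorem spl : SPL := by
  intro d hd p hp hp2 hJ
  haveI : Fact p.Prime := ⟨hp⟩
  rw [← jacobiSym.legendreSym.to_jacobiSym] at hJ
  have hne : ((d : ℤ) : ZMod p) ≠ 0 := by
    intro h0
    rw [(legendreSym.eq_zero_iff p d).mpr h0] at hJ
    exact zero_ne_one hJ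
  have hnd : ¬ ((p : ℤ) ∣ d) := fun h => hne ((ZMod.intCast_zmod_eq_zero_iff_dvd d p).mpr h)
  obtain ⟨y, hy⟩ := (legendreSym.eq_one_iff p hne).mp hJ
  have hodd : (p : ℤ) % 2 = 1 := by
    have := hp.eq_two_or_odd
    omega
  have hx : ∃ x : ℤ, (p : ℤ) ∣ x ^ 2 - d ∧ (x - d) % 2 = 0 := by
    have hy0 : (((y.val : ℕ) : ℤ) : ZMod p) = y := by
      rw [Int.cast_natCast, ZMod.natCast_val, ZMod.cast_id]
    by_cases h : (((y.val : ℕ) : ℤ) - d) % 2 = 0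
    · refine ⟨((y.val : ℕ) : ℤ), ?_, h⟩
      rw [← ZMod.intCast_zmod_eq_zero_iff_dvd, Int.cast_sub, Int.cast_pow, hy0, hy]
      ring
    · refine ⟨((y.val : ℕ) : ℤ) + p, ?_, by omega⟩
      rw [← ZMod.intCast_zmod_eq_zero_iff_dvd, Int.cast_sub, Int.cast_pow, Int.cast_add, hy0, hy,
        Int.cast_natCast, ZMod.natCast_self]
      ring
  obtain ⟨x, hx1, hx2⟩ := hx
  refine ⟨hnd, x, ?_⟩
  have h4 : (4 : ℤ) ∣ x ^ 2 - d := by
    rcases hd.2 with ⟨h1, -⟩ | ⟨m, hm, -, -⟩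
    · have hxo : x % 2 = 1 := by omega
      obtain ⟨t, ht⟩ : ∃ t, x = 2 * t + 1 := ⟨x / 2, by omega⟩
      obtain ⟨s, hs⟩ : ∃ s, d = 4 * s + 1 := ⟨d / 4, by omega⟩
      exact ⟨t ^ 2 + t - s, by rw [ht, hs]; ring⟩
    · have hxe : x % 2 = 0 := by omega
      obtain ⟨t, ht⟩ : ∃ t, x = 2 * t := ⟨x / 2, by omega⟩
      exact ⟨t ^ 2 - m, by rw [ht, hm]; ring⟩
  have hcop : IsCoprime (4 : ℤ) (p : ℤ) := by
    rw [show (4 : ℤ) = ((4 : ℕ) : ℤ) by norm_num, Nat.isCoprime_iff_coprime]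
    have h2 : Nat.Coprime 2 p := (Nat.coprime_primes Nat.prime_two hp).mpr (Ne.symm hp2)
    exact Nat.Coprime.pow_left 2 h2
  exact hcop.mul_dvd h4 hx1

end Pool.Agent.H471R4.SP
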